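import Mathlib
import Pool.Agent.H577R3.RM.Stmts

set_option autoImplicit false

/-! Counting the points over a given prime (task RM-CT). -/

namespace Pool.Agent.H455R3.RM

open Pool.Agent.Helper777.Prof Pool.Agent.H577R3 Pool.Agent.H577R3.RM

/-- value of `evl` at a monomial -/
theorem evl_single {K : Type} [Field K] {n : ℕ} (θ : Fin n → Kˣ) (u : Zm n) :
    evl θ (MonoidAlgebra.single u 1) = ∏ l, ((θ l : K)) ^ (Multiplicative.toAdd u l) := by
  unfold evl
  simp only [RingHom.coe_coe, MonoidAlgebra.lift_single, one_smul,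
    MonoidHom.comp_apply, mon, MonoidHom.coe_mk, OneHom.coe_mk, Units.coeHom_apply,
    Units.coe_prod, Units.val_zpow_eq_zpow_val]

/-- transfer of kernels -/
theorem ker_evl_eq {K K' L : Type} [Field K] [Field K'] [Field L] {n : ℕ}
    (θ : Fin n → Kˣ) (θ' : Fin n → K'ˣ) (f : K →+* L) (g : K' →+* L)
    (h : ∀ i, f (θ i : K) = g (θ' i : K')) :
    RingHom.ker (evl θ) = RingHom.ker (evl θ') := by
  have key : f.comp (evl θ) = g.comp (evl θ') := by
    refine MonoidAlgebra.ringHom_ext ?_ ?_
    · intro b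
      have hb : (MonoidAlgebra.single (1 : Zm n) b : Lam n) = b • (1 : Lam n) := by
        rw [MonoidAlgebra.one_def, MonoidAlgebra.smul_single, smul_eq_mul, mul_one]
      rw [hb]
      simp only [map_zsmul, map_one]
    · intro a
      simp only [RingHom.comp_apply, evl_single, map_prod, map_zpow₀, h]
  ext z
  rw [RingHom.mem_ker, RingHom.mem_ker]
  have hz : f (evl θ z) = g (evl θ' z) := by
    have := congrArg (fun φ : Lam n →+* L => φ z) key
    simpa using this
  constructor
  · intro h0
    rw [h0, map_zero] at hz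
    exact (map_eq_zero g).mp hz.symm
  · intro h0
    rw [h0, map_zero] at hz
    exact (map_eq_zero f).mp hz

theorem taskCT : TaskCT := by
  intro n C q w p hq
  classical
  by_cases hex : ∃ (K : Type) (_ : Field K) (θ : Fin n → Kˣ),
      Rad C q w θ ∧ RingHom.ker (evC C θ) = p
  swap
  · exact ⟨∅, by simp, fun K _ θ h1 h2 => (hex ⟨K, _, θ, h1, h2⟩).elim⟩
  obtain ⟨K0, _, θ0, hR0, hk0⟩ := hex
  haveI hp : p.IsPrime := hk0 ▸ RingHom.ker_isPrime _
  let A := MvPolynomial {c // c ∈ C} ℤ ⧸ p
  let k0 := FractionRing A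
  let Ω := AlgebraicClosure k0
  let ι : A →+* Ω := (algebraMap k0 Ω).comp (algebraMap A k0)
  have hι : Function.Injective ι :=
    (algebraMap k0 Ω).injective.comp (IsFractionRing.injective A k0)
  let x : {c // c ∈ C} → Ω := fun c => ι (Ideal.Quotient.mk p (MvPolynomial.X c))
  have hx : ∀ c, x c ≠ 0 := by
    intro c h0
    have h1 : Ideal.Quotient.mk p (MvPolynomial.X c) = 0 := by
      apply hι
      rw [map_zero]
      exact h0
    rw [Ideal.Quotient.eq_zero_iff_mem, ← hk0, RingHom.mem_ker] at h1
    simp [evC] at h1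
  let g : Fin n → Ω := fun i => ∏ c : {c // c ∈ C}, x c ^ w i c.1
  let S : Fin n → Finset Ω := fun i =>
    if h : i ∈ C then {x ⟨i, h⟩} else (Polynomial.nthRoots q (g i)).toFinset
  have hS : ∀ i, (S i).card ≤ q := by
    intro i
    by_cases h : i ∈ C
    · simp only [S, dif_pos h, Finset.card_singleton]
      exact hq
    · simp only [S, dif_neg h]
      exact (Multiset.toFinset_card_le _).trans (Polynomial.card_nthRoots q (g i))
  let T : Finset (Fin n → Ω) := Fintype.piFinset S
  have hT : T.card ≤ q ^ n := by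
    simp only [T, Fintype.card_piFinset]
    calc ∏ i, (S i).card ≤ ∏ _i : Fin n, q := Finset.prod_le_prod' (fun i _ => hS i)
      _ = q ^ n := by simp
  let F : (Fin n → Ω) → Ideal (Lam n) := fun y =>
    if h : ∀ i, y i ≠ 0 then RingHom.ker (evl (fun i => Units.mk0 (y i) (h i))) else ⊥
  refine ⟨T.image F, Finset.card_image_le.trans hT, ?_⟩
  intro K _ θ hR hk
  let L := AlgebraicClosure K
  let φA : A →+* L := Ideal.Quotient.lift p ((algebraMap K L).comp (evC C θ)) (by
    intro a ha
    rw [← hk, RingHom.mem_ker] at ha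
    rw [RingHom.comp_apply, ha, map_zero])
  have hφA : Function.Injective φA := by
    rw [injective_iff_map_eq_zero]
    intro a
    obtain ⟨b, rfl⟩ := Ideal.Quotient.mk_surjective a
    intro hb
    have hb' : algebraMap K L (evC C θ b) = 0 := hb
    rw [Ideal.Quotient.eq_zero_iff_mem, ← hk, RingHom.mem_ker]
    exact (map_eq_zero _).mp hb'
  let φk : k0 →+* L := IsFractionRing.lift hφA
  letI : Algebra k0 L := φk.toAlgebra
  let ψ : Ω →ₐ[k0] L := IsAlgClosed.lift
  have hψι : ∀ a : A, ψ (ι a) = φA a := by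
    intro a
    have h1 : ψ (algebraMap k0 Ω (algebraMap A k0 a)) = algebraMap k0 L (algebraMap A k0 a) :=
      ψ.commutes _
    have h2 : φk (algebraMap A k0 a) = φA a := IsFractionRing.lift_algebraMap hφA a
    exact h1.trans h2
  have hψx : ∀ c : {c // c ∈ C}, ψ (x c) = algebraMap K L (θ c.1 : K) := by
    intro c
    have h1 : ψ (x c) = φA (Ideal.Quotient.mk p (MvPolynomial.X c)) := hψι _
    rw [h1]
    have h2 : φA (Ideal.Quotient.mk p (MvPolynomial.X c)) =
      algebraMap K L (evC C θ (MvPolynomial.X c)) := rfl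
    rw [h2]
    simp [evC]
  have hψg : ∀ i, i ∉ C → ψ (g i) = algebraMap K L (θ i : K) ^ q := by
    intro i hi
    have h1 := hR i hi
    have h2 : ((θ i : K)) ^ q = ∏ c : {c // c ∈ C}, ((θ c.1 : K)) ^ w i c.1 := by
      have h3 : ((θ i ^ q : Kˣ) : K) = ((∏ c ∈ C, θ c ^ w i c : Kˣ) : K) := by rw [h1]
      rw [Units.val_pow_eq_pow_val, Units.coe_prod] at h3
      rw [h3, ← Finset.prod_coe_sort]
      refine Finset.prod_congr rfl (fun c _ => ?_)
      exact Units.val_zpow_eq_zpow_val _ _
    rw [← map_pow, h2, map_prod]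
    simp only [g, map_prod]
    refine Finset.prod_congr rfl (fun c _ => ?_)
    rw [map_zpow₀, map_zpow₀, hψx]
  -- the point over `Ω`
  have hpt : ∀ i, ∃ y ∈ S i, ψ y = algebraMap K L (θ i : K) := by
    intro i
    by_cases h : i ∈ C
    · refine ⟨x ⟨i, h⟩, ?_, hψx ⟨i, h⟩⟩
      simp only [S, dif_pos h, Finset.mem_singleton]
    · simp only [S, dif_neg h, Multiset.mem_toFinset]
      have hroot : Polynomial.eval (algebraMap K L (θ i : K))
          ((Polynomial.X ^ q - Polynomial.C (g i)).map (ψ : Ω →+* L)) = 0 := by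
        simp only [Polynomial.map_sub, Polynomial.map_pow, Polynomial.map_X, Polynomial.map_C,
          Polynomial.eval_sub, Polynomial.eval_pow, Polynomial.eval_X, Polynomial.eval_C]
        have := hψg i h
        rw [sub_eq_zero]
        exact this.symm
      have hsp : (Polynomial.X ^ q - Polynomial.C (g i)).Splits := IsAlgClosed.splits _
      have hmon : (Polynomial.X ^ q - Polynomial.C (g i)).Monic :=
        Polynomial.monic_X_pow_sub_C _ (by omega)
      have hprod := hsp.eq_prod_roots_of_monic hmon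
      rw [hprod, Polynomial.map_multiset_prod, Polynomial.eval_multiset_prod,
        Multiset.prod_eq_zero_iff, Multiset.map_map, Multiset.map_map, Multiset.mem_map] at hroot
      obtain ⟨r, hr, hr0⟩ := hroot
      refine ⟨r, hr, ?_⟩
      simp only [Function.comp_apply, Polynomial.map_sub, Polynomial.map_X, Polynomial.map_C,
        Polynomial.eval_sub, Polynomial.eval_X, Polynomial.eval_C, sub_eq_zero] at hr0
      exact hr0.symm
  choose y hyS hyψ using hpt
  have hy0 : ∀ i, y i ≠ 0 := by
    intro i h0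
    have h1 := hyψ i
    rw [h0, map_zero] at h1
    exact (θ i).ne_zero ((map_eq_zero _).mp h1.symm)
  rw [Finset.mem_image]
  refine ⟨y, Fintype.mem_piFinset.mpr hyS, ?_⟩
  have hF : F y = RingHom.ker (evl (fun i => Units.mk0 (y i) (hy0 i))) := by
    simp only [F, dif_pos hy0]
  rw [hF]
  exact ker_evl_eq (fun i => Units.mk0 (y i) (hy0 i)) θ (ψ : Ω →+* L) (algebraMap K L)
    (fun i => by
      have := hyψ i
      simpa using this)

end Pool.Agent.H455R3.RM
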